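import Pool.Agent.H9.OS1.Defs
import Pool.Agent.H41.HWS.Known

/-!
Translation between the definitions of `Pool.OS1` and those of `Pool.Agent.H32.HW` and
`Pool.Agent.H41.HWS`.
-/

namespace Pool.Agent.H9.OS1

open Finset Pool.OS1
open scoped LinearAlgebra.Projectivization

/-- The values of a family at the pairs `(p, k)`. -/
def res (N : ℕ) (t : ℕ → ℕ → ℂ) (x : Pool.Agent.H32.HW.Idx N) : ℂ := t x.p x.k

/-- The pairs `(p, k)`. -/
def oi (N : ℕ) : Pool.Agent.H32.HW.Idx N ≃ {x : ℕ × ℕ // x.1.Prime ∧ ¬ x.1 ∣ N ∧ x.2 ≠ 0} where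
  toFun x := ⟨(x.p, x.k), x.prime, x.ndvd, x.pos⟩
  invFun y := ⟨y.1.1, y.1.2, y.2.1, y.2.2.1, y.2.2.2⟩
  left_inv _ := rfl
  right_inv _ := rfl

theorem LF_eq (N : ℕ) (t : ℕ → ℕ → ℂ) (s : ℂ) :
    Pool.OS1.LF N t s = Pool.Agent.H32.HW.LF (res N t) s := by
  unfold Pool.OS1.LF Pool.Agent.H32.HW.LF
  congr 1
  exact ((oi N).tsum_eq (fun x : {x : ℕ × ℕ // x.1.Prime ∧ ¬ x.1 ∣ N ∧ x.2 ≠ 0} =>
    t x.1.1 x.1.2 / x.1.2 * (x.1.1 : ℂ) ^ (-(x.1.2 * s)))).symm

theorem ext_iff (E : Set ℝ) (N : ℕ) (t : ℕ → ℕ → ℂ) :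
    Pool.OS1.Good E Set.univ (Pool.OS1.LF N t) ↔ Pool.Agent.H32.HW.Good E (res N t) := by
  unfold Pool.OS1.Good Pool.Agent.H32.HW.Good
  simp only [LF_eq, meromorphicOn_univ, Set.mem_univ, forall_const]

theorem extTo_iff (E : Set ℝ) (a : ℝ) (N : ℕ) (t : ℕ → ℕ → ℂ) :
    Pool.OS1.Good E {s | a < s.re} (Pool.OS1.LF N t) ↔
      Pool.Agent.H41.HWS.GoodTo E a (res N t) := by
  unfold Pool.OS1.Good Pool.Agent.H41.HWS.GoodTo
  simp only [LF_eq]
  rfl

variable {N : ℕ}

theorem card_K (x : Pool.Agent.H32.HW.Idx N) : Nat.card x.K = x.p ^ x.k := by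
  have : Fact x.p.Prime := ⟨x.prime⟩
  exact GaloisField.card x.p x.k x.pos

theorem finite_K (x : Pool.Agent.H32.HW.Idx N) : Finite x.K := by
  apply Nat.finite_of_card_ne_zero
  rw [card_K]
  exact pow_ne_zero _ x.prime.ne_zero

theorem zeros_iff {σ K : Type} [Field K] (F : Finset (MvPolynomial σ ℤ)) (v : σ → K) :
    Zeros F K v ↔ ∀ f ∈ F, MvPolynomial.aeval v f = 0 := by
  unfold Zeros
  refine forall₂_congr fun f _ => ?_
  rw [MvPolynomial.aeval_def, algebraMap_int_eq]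

theorem affine_res {σ : Type} {F : Finset (MvPolynomial σ ℤ)} {c : ℕ → ℕ → ℂ}
    (h : Affine F N c) : res N c = fun x => (Pool.Agent.H32.HW.affine F N x : ℂ) := by
  funext x
  have h1 := h x.p x.k x.prime x.ndvd x.pos x.K (card_K x)
  simp only [zeros_iff] at h1
  exact h1

theorem projective_res {σ : Type} [Finite σ] {F : Finset (MvPolynomial σ ℤ)} {c : ℕ → ℕ → ℂ}
    (h : Projective F N c) : res N c = fun x => (Pool.Agent.H32.HW.points F N x : ℂ) := by
  have := Fintype.ofFinite σ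
  funext x
  have := finite_K x
  have h1 := h.2 x.p x.k x.prime x.ndvd x.pos x.K (card_K x)
  simp only [Cone, zeros_iff] at h1
  have h2 := Pool.Agent.H73.Zeta.card_proj (σ := σ) (K := x.K)
    (fun v => ∀ f ∈ F, MvPolynomial.aeval v f = 0) (Pool.Agent.H73.Zeta.zeros_smul h.1)
  have h3 : (Pool.Agent.H73.Zeta.cnt (fun v : σ → x.K => v ≠ 0 ∧
      ∀ f ∈ F, MvPolynomial.aeval v f = 0) : ℤ) = (Nat.card {v : σ → x.K //
        (∀ f ∈ F, MvPolynomial.aeval v f = 0) ∧ ∃ i, v i ≠ 0} : ℕ) := by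
    unfold Pool.Agent.H73.Zeta.cnt
    congr 1
    refine Nat.card_congr (Equiv.subtypeEquivRight fun v => ?_)
    rw [Function.ne_iff, and_comm]
    rfl
  rw [h3, card_K] at h2
  have h4 := congrArg (Int.cast : ℤ → ℂ) h2
  push_cast at h4
  have hp : (x.p : ℂ) ^ x.k - 1 ≠ 0 := by
    rw [sub_ne_zero]
    have h5 : x.p ^ x.k ≠ 1 := (Nat.one_lt_pow x.pos x.prime.one_lt).ne'
    exact_mod_cast h5
  apply mul_right_cancel₀ hp
  show c x.p x.k * ((x.p : ℂ) ^ x.k - 1) = (Pool.Agent.H32.HW.points F N x : ℂ) *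
    ((x.p : ℂ) ^ x.k - 1)
  rw [h1, ← h4, mul_comm]
  rfl

/-- The eigenvalues, indexed by `Fin`. -/
def al (b : ℕ → ℕ) (α : ℕ → ℕ → ℕ → ℂ) (i p : ℕ) (j : Fin (b i)) : ℂ := α i p j

theorem weil_res {n : ℕ} {b : ℕ → ℕ} {α : ℕ → ℕ → ℕ → ℂ} {c : ℕ → ℕ → ℂ} (h : Weil N n b α c)
    {c' : Pool.Agent.H32.HW.Idx N → ℤ} (hc : ∀ x, (c' x : ℂ) = res N c x) :
    Pool.Agent.H32.HW.Weil N n b (al b α) c' where
  pure i hi p hp hN j := by
    have h1 := (h p 1 hp hN one_ne_zero).1 i hi j j.2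
    have h2 : (0 : ℝ) ≤ p := Nat.cast_nonneg p
    show ‖α i p j‖ = _
    have h3 : ((p : ℝ) ^ ((i : ℝ) / 2)) ^ 2 = (p : ℝ) ^ i := by
      rw [← Real.rpow_natCast, ← Real.rpow_mul h2]
      push_cast
      rw [div_mul_cancel₀ _ two_ne_zero, Real.rpow_natCast]
    rw [← h3] at h1
    exact (pow_left_inj₀ (norm_nonneg _) (Real.rpow_nonneg h2 _) two_ne_zero).1 h1
  trace x := by
    rw [hc x]
    show c x.p x.k = _
    rw [(h x.p x.k x.prime x.ndvd x.pos).2]
    refine Finset.sum_congr rfl fun i _ => ?_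
    rw [Finset.sum_range]
    rfl

theorem sum_powersetCard_range (b m : ℕ) (f : ℕ → ℂ) :
    ∑ S ∈ (range b).powersetCard m, ∏ j ∈ S, f j =
      ∑ S ∈ (univ : Finset (Fin b)).powersetCard m, ∏ j ∈ S, f j := by
  have h1 : range b = (univ : Finset (Fin b)).map Fin.valEmbedding := by
    ext j
    simp
  rw [h1, Finset.powersetCard_map, Finset.sum_map]
  refine Finset.sum_congr rfl fun S _ => ?_
  simp [Finset.prod_map]

theorem ext_res (b : ℕ → ℕ) (α : ℕ → ℕ → ℕ → ℂ) (i m : ℕ) :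
    res N (Pool.OS1.ext (b i) (α i) m) = Pool.Agent.H32.HW.ext (al b α) i m := by
  funext x
  exact sum_powersetCard_range (b i) m (fun j => α i x.p j ^ x.k)

theorem inRing_res {t : ℕ → ℕ → ℂ} (h : InRing N t) :
    res N t ∈ Subring.closure (Pool.Agent.H32.HW.Gens2 N) := by
  induction h with
  | affine σ F c hc =>
    have := Fintype.ofFinite σ
    exact Subring.subset_closure ⟨σ, this, F, Or.inl (affine_res hc)⟩
  | projective σ F c hc =>
    have := Fintype.ofFinite σ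
    exact Subring.subset_closure ⟨σ, this, F, Or.inr ⟨hc.1, Or.inl (projective_res hc)⟩⟩
  | exterior σ F c n b α i m hc hW hi =>
    have := Fintype.ofFinite σ
    refine Subring.subset_closure ⟨σ, this, F, Or.inr ⟨hc.1, Or.inr ⟨n, b, al b α, i, m,
      weil_res hW fun x => ?_, hi, ext_res b α i m⟩⟩⟩
    rw [projective_res hc]
    push_cast
    rfl
  | one => exact one_mem _
  | neg t _ ih => exact neg_mem ih
  | add t u _ _ ih₁ ih₂ => exact add_mem ih₁ ih₂
  | mul t u _ _ ih₁ ih₂ => exact mul_mem ih₁ ih₂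

/-! ### The cubic hypersurfaces -/

/-- The values of the variables. -/
abbrev Tup (m : ℕ) (K : Type) : Type := (l : Fin m) → (Fin m → K) × (Fin m → K) × (Fin m → K) ×
  (Fin (m * (m + l)) → (Fin m → K) × K)

/-- The values of the variables. -/
def tup (m : ℕ) (K : Type) : (Pool.Agent.H41.HWS.Var m → K) ≃ Tup m K where
  toFun w := fun l => (fun i => w (.x l i), fun j => w (.y l j), fun k => w (.z l k),
    fun n => (fun j => w (.u l n j), w (.v l n)))
  invFun z := fun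
    | .x l i => (z l).1 i
    | .y l j => (z l).2.1 j
    | .z l k => (z l).2.2.1 k
    | .u l n j => ((z l).2.2.2 n).1 j
    | .v l n => ((z l).2.2.2 n).2
  left_inv w := by
    funext t
    cases t <;> rfl
  right_inv z := rfl

/-- The form `F_m`. -/
abbrev form {K : Type} [Field K] (m : ℕ) (w : Tup m K) : K :=
  ∑ l : Fin m, ((∑ i : Fin m, ∑ j : Fin m, ∑ k : Fin m,
      (coef l i j k : K) * (w l).1 i * (w l).2.1 j * (w l).2.2.1 k) +
    ∑ n : Fin (m * (m + l)), ∑ j : Fin m,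
      ((w l).2.2.2 n).1 j * (w l).2.1 j * ((w l).2.2.2 n).2)

theorem aeval_eqn {K : Type} [Field K] (m : ℕ) (w : Pool.Agent.H41.HWS.Var m → K) :
    MvPolynomial.aeval w (Pool.Agent.H41.HWS.eqn m) = form m (tup m K w) - 1 := by
  unfold Pool.Agent.H41.HWS.eqn form
  rw [map_sub, map_one]
  simp only [map_sum, map_add, map_mul, MvPolynomial.aeval_X, MvPolynomial.aeval_C,
    algebraMap_int_eq, Int.coe_castRingHom]
  rfl

theorem card_eqn {K : Type} [Field K] (m : ℕ) :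
    Nat.card {w : Tup m K // form m w = 1} =
      Nat.card {v : Pool.Agent.H41.HWS.Var m → K // Zeros {Pool.Agent.H41.HWS.eqn m} K v} := by
  refine (Nat.card_congr (Equiv.subtypeEquiv (tup m K) (fun v => ?_))).symm
  rw [zeros_iff]
  simp only [Finset.mem_singleton, forall_eq]
  rw [aeval_eqn, sub_eq_zero]

theorem cubic_affine {m : ℕ} {c : ℕ → ℕ → ℂ} (h : Cubic m c) :
    Affine {Pool.Agent.H41.HWS.eqn m} 1 c := by
  intro p k hp hN hk K _ hK
  exact (h p k hp hN hk K hK).trans (congrArg _ (card_eqn m))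

theorem cubic_res {m : ℕ} {c : ℕ → ℕ → ℂ} (h : Cubic m c) :
    res 1 c = Pool.Agent.H41.HWS.cubics m := affine_res (cubic_affine h)

theorem card_iso {K L : Type} [Field K] [Field L] (e : K ≃+* L) {σ : Type}
    (F : Finset (MvPolynomial σ ℤ)) :
    Nat.card {v : σ → K // ∀ f ∈ F, MvPolynomial.aeval v f = 0} =
      Nat.card {v : σ → L // ∀ f ∈ F, MvPolynomial.aeval v f = 0} := by
  refine Nat.card_congr (Equiv.subtypeEquiv (Equiv.arrowCongr (Equiv.refl σ) e.toEquiv)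
    fun v => forall₂_congr fun f _ => ?_)
  have h1 : MvPolynomial.aeval (fun i => e (v i)) f = e (MvPolynomial.aeval v f) := by
    have := MvPolynomial.map_aeval v (e : K →+* L) f
    rw [MvPolynomial.aeval_def]
    show _ = (e : K →+* L) (MvPolynomial.aeval v f)
    rw [this, MvPolynomial.coe_eval₂Hom]
    congr 1
    exact RingHom.ext_int _ _
  show _ ↔ MvPolynomial.aeval (fun i => e (v i)) f = 0
  rw [h1]
  exact (map_eq_zero e).symm

theorem exists_cubic (m : ℕ) : ∃ c, Cubic m c := by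
  classical
  refine ⟨fun p k => if h : p.Prime ∧ k ≠ 0 then
    Pool.Agent.H41.HWS.cubics m ⟨p, k, h.1, fun hd => h.1.one_lt.ne' (Nat.dvd_one.1 hd), h.2⟩
      else 0, ?_⟩
  intro p k hp _ hk K _ hK
  dsimp only
  rw [dif_pos ⟨hp, hk⟩]
  refine Eq.trans ?_ (congrArg _ (card_eqn (K := K) m)).symm
  simp only [zeros_iff]
  let x : Pool.Agent.H32.HW.Idx 1 := ⟨p, k, hp, fun hd => hp.one_lt.ne' (Nat.dvd_one.1 hd), hk⟩
  show ((Pool.Agent.H32.HW.affine {Pool.Agent.H41.HWS.eqn m} 1 x : ℕ) : ℂ) = _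
  have := finite_K x
  have hfin : Finite K := Nat.finite_of_card_ne_zero (by rw [hK]; exact pow_ne_zero _ hp.ne_zero)
  have e : x.K ≃+* K := by
    have := Fintype.ofFinite x.K
    have := Fintype.ofFinite K
    apply FiniteField.ringEquivOfCardEq
    rw [← Nat.card_eq_fintype_card, ← Nat.card_eq_fintype_card, card_K, hK]
  congr 1
  exact card_iso e _

theorem vars_eq (m : ℕ) : 2 * vars m = m ^ 2 * (3 * m ^ 2 + 2 * m + 5) := by
  unfold vars
  have h : ∀ n : ℕ, 2 * ∑ l ∈ range n, (3 * m + m * (m + l) * (m + 1)) + n * m * (m + 1) =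
      6 * m * n + (2 * m ^ 2 * n + m * n * n) * (m + 1) := by
    intro n
    induction n with
    | zero => simp
    | succ n ih =>
      rw [Finset.sum_range_succ]
      linear_combination ih
  have := h m
  nlinarith [this]

theorem vars_eq' (m : ℕ) : (vars m : ℝ) = Pool.Agent.H41.HWS.dimX m + 1 := by
  have h1 : (2 : ℝ) * vars m = (m : ℝ) ^ 2 * (3 * (m : ℝ) ^ 2 + 2 * m + 5) := by
    exact_mod_cast vars_eq m
  unfold Pool.Agent.H41.HWS.dimX
  linear_combination h1 / 2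

theorem strips_iff (E : Set ℝ) : Strips E ↔ Pool.Agent.H41.HWS.Strips E := by
  unfold Strips Pool.Agent.H41.HWS.Strips
  refine forall_congr' fun K => Filter.frequently_congr (Filter.Eventually.of_forall fun m => ?_)
  have h1 : (vars m : ℝ) - (1 + 2 * m ^ 2 + K * m : ℕ) =
      Pool.Agent.H41.HWS.dimX m - 2 * (m : ℝ) ^ 2 - K * m := by
    rw [vars_eq']
    push_cast
    ring
  rw [h1]
  constructor
  · intro h
    obtain ⟨c, hc⟩ := exists_cubic m
    have := (extTo_iff E _ 1 c).1 (h c hc)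
    rwa [cubic_res hc] at this
  · intro h c hc
    rw [extTo_iff, cubic_res hc]
    exact h

theorem hs_res {c : ℕ → ℕ → ℂ} {h : ℕ → ℕ → ℕ → ℂ} (hh : IsSym c h) (n : ℕ) :
    Pool.Agent.H32.HW.hs (res N c) n = res N (h n) := by
  induction n using Nat.strong_induction_on with
  | _ n ih =>
    funext x
    cases n with
    | zero =>
      rw [Pool.Agent.H32.HW.hs]
      exact (hh x.p x.k).1.symm
    | succ n =>
      rw [Pool.Agent.H32.HW.hs]
      have h1 := (hh x.p x.k).2 n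
      show (1 / ((n : ℂ) + 1)) * ∑ j : Fin (n + 1), res N c (x.up j) *
        Pool.Agent.H32.HW.hs (res N c) (n - j) x = h (n + 1) x.p x.k
      have h2 : ((n : ℂ) + 1) ≠ 0 := by exact_mod_cast Nat.succ_ne_zero n
      rw [one_div, inv_mul_eq_iff_eq_mul₀ h2, h1, Finset.sum_range]
      refine Finset.sum_congr rfl fun j _ => ?_
      rw [ih (n - j) (by omega)]
      rfl

theorem res_list {ι : Type} (l : List ι) (f : ι → ℕ → ℕ → ℂ) :
    res N (fun p k => (l.map fun i => f i p k).prod) = (l.map fun i => res N (f i)).prod := by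
  induction l with
  | nil => rfl
  | cons a l ih =>
    rw [List.map_cons, List.prod_cons, ← ih]
    rfl

end Pool.Agent.H9.OS1
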