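import Mathlib

/-!
Definitions for the theorem on one sequence of affine cubic hypersurfaces `X_m` over `ℤ`.

Families of numbers `t (p, k)` are functions `t : ℕ → ℕ → ℂ`; only the values at the primes `p`
which do not divide `N` and at the `k ≥ 1` matter.
-/

noncomputable section

open Finset

namespace Pool.OS1

/-! ### L-functions -/

/-- The L-function of the numbers `t (p, k)`: the exponential of the sum of
`t (p, k) p ^ (- k s) / k`, over the primes `p` which do not divide `N` and the `k ≥ 1`. -/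
def LF (N : ℕ) (t : ℕ → ℕ → ℂ) (s : ℂ) : ℂ :=
  Complex.exp (∑' x : {x : ℕ × ℕ // x.1.Prime ∧ ¬ x.1 ∣ N ∧ x.2 ≠ 0},
    t x.1.1 x.1.2 / x.1.2 * (x.1.1 : ℂ) ^ (-(x.1.2 * s)))

/-- The function `L`, given for large `Re s`, extends to a meromorphic function on `S` (a half plane
or `ℂ`), all of whose zeros and poles in `S` have their real parts in `E`. -/
def Good (E : Set ℝ) (S : Set ℂ) (L : ℂ → ℂ) : Prop :=
  ∃ g : ℂ → ℂ, MeromorphicOn g S ∧ (∀ s ∈ S, meromorphicOrderAt g s ≠ 0 → s.re ∈ E) ∧
    ∃ c : ℝ, ∀ s : ℂ, c < s.re → g s = L s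

/-! ### Numbers of points -/

/-- `c (p, k)` is the number of elements of `X K`, for the fields `K` with `p ^ k` elements. -/
def Counts (N : ℕ) (c : ℕ → ℕ → ℂ) (X : (K : Type) → [Field K] → Type) : Prop :=
  ∀ p k : ℕ, p.Prime → ¬ p ∣ N → k ≠ 0 → ∀ (K : Type) [Field K], Nat.card K = p ^ k →
    c p k = Nat.card (X K)

/-- The vectors over `K` at which all the polynomials in `F` vanish. -/
def Zeros {σ : Type} (F : Finset (MvPolynomial σ ℤ)) (K : Type) [Field K] (v : σ → K) : Prop :=
  ∀ f ∈ F, f.eval₂ (Int.castRingHom K) v = 0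

/-- The vectors of homogeneous coordinates of the points over `K` of the projective scheme defined by
`F`. -/
def Cone {σ : Type} (F : Finset (MvPolynomial σ ℤ)) (K : Type) [Field K] (v : σ → K) : Prop :=
  Zeros F K v ∧ ∃ i, v i ≠ 0

/-- `c (p, k)` is the number of points, over the fields with `p ^ k` elements, of the closed
subscheme of the affine space over `ℤ[1/N]` defined by a finite set `F` of polynomials. -/
def Affine {σ : Type} (F : Finset (MvPolynomial σ ℤ)) (N : ℕ) (c : ℕ → ℕ → ℂ) : Prop :=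
  Counts N c fun K _ => {v : σ → K // Zeros F K v}

/-- `c (p, k)` is the number of points, over the fields with `p ^ k` elements, of the closed
subscheme of the projective space over `ℤ[1/N]` defined by a finite set `F` of homogeneous
polynomials: each point has `p ^ k - 1` vectors of homogeneous coordinates. -/
def Projective {σ : Type} (F : Finset (MvPolynomial σ ℤ)) (N : ℕ) (c : ℕ → ℕ → ℂ) : Prop :=
  (∀ f ∈ F, ∃ d : ℕ, f.IsHomogeneous d) ∧
    Counts N (fun p k => c p k * (p ^ k - 1)) fun K _ => {v : σ → K // Cone F K v}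

/-- The numbers `α i p j` (`i < n`, `j < b i`) are pure of weight `i`, and `c (p, k)` is the
alternating sum over `i` of the sums of their `k`-th powers. -/
def Weil (N n : ℕ) (b : ℕ → ℕ) (α : ℕ → ℕ → ℕ → ℂ) (c : ℕ → ℕ → ℂ) : Prop :=
  ∀ p k : ℕ, p.Prime → ¬ p ∣ N → k ≠ 0 →
    (∀ i < n, ∀ j < b i, ‖α i p j‖ ^ 2 = (p : ℝ) ^ i) ∧
      c p k = ∑ i ∈ range n, (-1) ^ i * ∑ j ∈ range (b i), α i p j ^ k

/-- The traces of the powers of Frobenius on the `m`-th exterior power of a space with the Frobenius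
eigenvalues `α p j`, `j < b`. -/
def ext (b : ℕ) (α : ℕ → ℕ → ℂ) (m p k : ℕ) : ℂ :=
  ∑ S ∈ (range b).powersetCard m, ∏ j ∈ S, α p j ^ k

/-- The ring generated by the numbers of points of all affine and of all projective schemes over
`ℤ[1/N]`, and by the traces of Frobenius on the exterior powers of the cohomology of all projective
schemes over `ℤ[1/N]` with Frobenius eigenvalues as in `Weil`. -/
inductive InRing (N : ℕ) : (ℕ → ℕ → ℂ) → Prop
  | affine (σ : Type) [Finite σ] (F : Finset (MvPolynomial σ ℤ)) (c : ℕ → ℕ → ℂ) :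
      Affine F N c → InRing N c
  | projective (σ : Type) [Finite σ] (F : Finset (MvPolynomial σ ℤ)) (c : ℕ → ℕ → ℂ) :
      Projective F N c → InRing N c
  | exterior (σ : Type) [Finite σ] (F : Finset (MvPolynomial σ ℤ)) (c : ℕ → ℕ → ℂ) (n : ℕ)
      (b : ℕ → ℕ) (α : ℕ → ℕ → ℕ → ℂ) (i m : ℕ) :
      Projective F N c → Weil N n b α c → i < n → InRing N (ext (b i) (α i) m)
  | one : InRing N (fun _ _ => 1)
  | neg (t : ℕ → ℕ → ℂ) : InRing N t → InRing N (fun p k => -t p k)
  | add (t u : ℕ → ℕ → ℂ) : InRing N t → InRing N u → InRing N (fun p k => t p k + u p k)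
  | mul (t u : ℕ → ℕ → ℂ) : InRing N t → InRing N u → InRing N (fun p k => t p k * u p k)

/-- If `t (p, k)` is the number of points of `X` over the field with `p ^ k` elements, then
`h n (p, k)` is the number of points of the `n`-th symmetric power of `X`: the coefficient of `z ^ n`
in the exponential of the sum of `t (p, j k) z ^ j / j` over `j ≥ 1`. -/
def IsSym (t : ℕ → ℕ → ℂ) (h : ℕ → ℕ → ℕ → ℂ) : Prop :=
  ∀ p k : ℕ, h 0 p k = 1 ∧ ∀ n : ℕ, ((n : ℂ) + 1) * h (n + 1) p k =
    ∑ j ∈ range (n + 1), t p ((j + 1) * k) * h (n - j) p k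

/-! ### The cubic hypersurfaces -/

/-- The coefficient of `x i * y j * z k` in the trilinear form `T_l`: it is `0`, `1` or `-1`, as
the digit of `l` in base three at the place `Nat.pair i (Nat.pair j k)` is `0`, `1` or `2`. -/
def coef (l i j k : ℕ) : ℤ := ((l / 3 ^ Nat.pair i (Nat.pair j k) + 1) % 3 : ℕ) - 1

/-- The points `w` of `X_m : F_m = 1` over `K`.  The coordinates of `w` are `x i = (w l).1 i`,
`y j = (w l).2.1 j`, `z k = (w l).2.2.1 k`, `u n j = ((w l).2.2.2 n).1 j` and
`v n = ((w l).2.2.2 n).2` for `l < m`, where `i, j, k < m` and `n < m (m + l)`, and `F_m` is the sum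
over `l < m` of the trilinear forms `T_l (x, y, z)` and of the products `u n j * y j * v n`. -/
def OnX (m : ℕ) (K : Type) [Field K] (w : (l : Fin m) → (Fin m → K) × (Fin m → K) × (Fin m → K) ×
    (Fin (m * (m + l)) → (Fin m → K) × K)) : Prop :=
  ∑ l : Fin m, ((∑ i : Fin m, ∑ j : Fin m, ∑ k : Fin m,
      (coef l i j k : K) * (w l).1 i * (w l).2.1 j * (w l).2.2.1 k) +
    ∑ n : Fin (m * (m + l)), ∑ j : Fin m,
      ((w l).2.2.2 n).1 j * (w l).2.1 j * ((w l).2.2.2 n).2) = 1

/-- `c (p, k)` is the number of points of `X_m` over the fields with `p ^ k` elements. -/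
def Cubic (m : ℕ) (c : ℕ → ℕ → ℂ) : Prop := Counts 1 c fun K _ => {w // OnX m K w}

/-- The number of the variables of `F_m`, which is one plus the dimension of `X_m`. -/
def vars (m : ℕ) : ℕ := ∑ l ∈ range m, (3 * m + m * (m + l) * (m + 1))

/-- For every `K` there are infinitely many `m` such that the zeta function of `X_m` extends to a
meromorphic function on the half plane `Re s > dim X_m - 2 m ^ 2 - K m`, all of whose zeros and
poles there have their real parts in `E`. -/
def Strips (E : Set ℝ) : Prop :=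
  ∀ K : ℕ, ∃ᶠ m : ℕ in Filter.atTop, ∀ c, Cubic m c →
    Good E {s | (vars m : ℝ) - (1 + 2 * m ^ 2 + K * m : ℕ) < s.re} (LF 1 c)

end Pool.OS1

end
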