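import Pool.Agent.H9.OS1.Conv

/-!
The theorem on one sequence of affine cubic hypersurfaces, for the definitions of `Pool.OS1`.
-/

namespace Pool.Agent.H9.OS1

open Finset Pool.OS1

theorem known (m : ℕ) {c : ℕ → ℕ → ℂ} (hc : Cubic m c) :
    Pool.OS1.Good Set.univ {s | (vars m : ℝ) - 1 - 2 * m ^ 2 + m + 1 < s.re} (LF 1 c) := by
  rw [extTo_iff, cubic_res hc]
  have h := Pool.Agent.H41.HWS.known m
  rw [vars_eq', add_sub_cancel_right]
  exact h

variable {E : Set ℝ}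

theorem strips_closure (hE : ∀ x : ℝ, x + 1 ∈ E ↔ x ∈ E) (h : Strips E) (N : ℕ) :
    ∀ t ∈ Subring.closure (Pool.Agent.H32.HW.Gens2 N), Pool.Agent.H32.HW.Good E t :=
  fun t ht => Pool.Agent.H32.HW.all_schemes2 hE
    (Pool.Agent.H41.HWS.cubics_of_strips hE ((strips_iff E).1 h)) N t ht

theorem main_iff (hE : ∀ x : ℝ, x + 1 ∈ E ↔ x ∈ E) :
    Strips E ↔ ∀ N t, InRing N t → Pool.OS1.Good E Set.univ (LF N t) := by
  constructor
  · intro h N t ht
    rw [ext_iff]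
    exact strips_closure hE h N _ (inRing_res ht)
  · intro h
    rw [strips_iff]
    intro K
    refine Filter.Eventually.frequently (Filter.Eventually.of_forall fun m => ?_)
    obtain ⟨c, hc⟩ := exists_cubic m
    have h1 := h 1 c (InRing.affine _ _ c (cubic_affine hc))
    rw [ext_iff, cubic_res hc] at h1
    exact Pool.Agent.H41.HWS.GoodTo.of_good h1 _

theorem single (hE : ∀ x : ℝ, x + 1 ∈ E ↔ x ∈ E) (h : Strips E) (σ : Type) [Finite σ]
    (F : Finset (MvPolynomial σ ℤ)) (N n : ℕ) (b : ℕ → ℕ) (α : ℕ → ℕ → ℕ → ℂ)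
    (c : ℕ → ℕ → ℂ) (hc : Projective F N c) (hW : Weil N n b α c) (i : ℕ) (hi : i < n) :
    Pool.OS1.Good E Set.univ (fun s => ∏' p : {p : ℕ // p.Prime ∧ ¬ p ∣ N},
      (∏ j ∈ range (b i), (1 - α i p j * (p : ℂ) ^ (-s)))⁻¹) := by
  have := Fintype.ofFinite σ
  obtain ⟨g, g1, g2, C, g3⟩ := Pool.Agent.H32.HW.single2 (strips_closure hE h N) σ F hc.1 n b
    (al b α) (weil_res hW fun x => by
      rw [projective_res hc]
      push_cast
      rfl) i hi
  refine ⟨g, meromorphicOn_univ.2 g1, fun s _ => g2 s, C, fun s hs => ?_⟩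
  rw [g3 s hs]
  refine tprod_congr fun p => ?_
  rw [Finset.prod_range]
  rfl

theorem one (hE : ∀ x : ℝ, x + 1 ∈ E ↔ x ∈ E) (N n : ℕ) (b : ℕ → ℕ) (α : ℕ → ℕ → ℕ → ℂ)
    (c : ℕ → ℕ → ℤ) (h : ℕ → ℕ → ℕ → ℂ) (hW : Weil N n b α (fun p k => c p k))
    (hh : IsSym (fun p k => c p k) h) :
    (∀ l : List ℕ, Pool.OS1.Good E Set.univ (LF N fun p k => (l.map fun i => h i p k).prod)) ↔
      ∀ l : List (ℕ × ℕ), (∀ z ∈ l, z.1 < n) →
        Pool.OS1.Good E Set.univ (LF N fun p k =>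
          (l.map fun z => Pool.OS1.ext (b z.1) (α z.1) z.2 p k).prod) := by
  have h1 := Pool.Agent.H32.HW.one_scheme hE N n b (al b α) (fun x => c x.p x.k)
    (weil_res hW fun x => rfl)
  have h2 : Pool.Agent.H32.HW.hs (fun x : Pool.Agent.H32.HW.Idx N => ((c x.p x.k : ℤ) : ℂ)) =
      fun n => res N (h n) := by
    funext n
    exact hs_res hh n
  rw [h2] at h1
  have e1 : ∀ l : List ℕ, Pool.OS1.Good E Set.univ (LF N fun p k => (l.map fun i => h i p k).prod) ↔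
      Pool.Agent.H32.HW.Good E (l.map fun n => res N (h n)).prod := by
    intro l
    rw [ext_iff, res_list]
  have e2 : ∀ l : List (ℕ × ℕ), Pool.OS1.Good E Set.univ (LF N fun p k =>
      (l.map fun z => Pool.OS1.ext (b z.1) (α z.1) z.2 p k).prod) ↔
        Pool.Agent.H32.HW.Good E (l.map fun z =>
          (Pool.Agent.H32.HW.ext (al b α) z.1 z.2 : Pool.Agent.H32.HW.Idx N → ℂ)).prod := by
    intro l
    rw [ext_iff, res_list (f := fun z : ℕ × ℕ => Pool.OS1.ext (b z.1) (α z.1) z.2)]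
    simp only [ext_res]
  simp only [e1, e2]
  exact h1

end Pool.Agent.H9.OS1
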